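import Mathlib

/-!
# 2-adic integrality of the Taylor coefficients of a quotient of hypergeometric series
-/

set_option autoImplicit false

namespace Pool.Agent.R326.TA

open PowerSeries Finset

/-! ### the ring of rationals with odd denominator -/

/-- the rational numbers with odd denominator -/
def Z2 : Subring ℚ where
  carrier := {x | ∃ a b : ℤ, Odd b ∧ x * b = a}
  mul_mem' := by
    rintro x y ⟨a, b, hb, h⟩ ⟨c, d, hd, h'⟩
    refine ⟨a * c, b * d, hb.mul hd, ?_⟩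
    push_cast
    rw [← h, ← h']
    ring
  one_mem' := ⟨1, 1, odd_one, by norm_num⟩
  add_mem' := by
    rintro x y ⟨a, b, hb, h⟩ ⟨c, d, hd, h'⟩
    refine ⟨a * d + c * b, b * d, hb.mul hd, ?_⟩
    push_cast
    rw [← h, ← h']
    ring
  zero_mem' := ⟨0, 1, odd_one, by norm_num⟩
  neg_mem' := by
    rintro x ⟨a, b, hb, h⟩
    refine ⟨-a, b, hb, ?_⟩
    push_cast
    rw [← h]
    ring

lemma int_mem (a : ℤ) : (a : ℚ) ∈ Z2 := ⟨a, 1, odd_one, by norm_num⟩

lemma nat_mem (a : ℕ) : (a : ℚ) ∈ Z2 := by exact_mod_cast int_mem a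

lemma div_odd_mem {x : ℚ} (hx : x ∈ Z2) (n : ℕ) : x / (2 * n + 1) ∈ Z2 := by
  obtain ⟨a, b, hb, h⟩ := hx
  refine ⟨a, b * (2 * n + 1), hb.mul ⟨n, by ring⟩, ?_⟩
  push_cast
  rw [← h]
  have : (2 * (n : ℚ) + 1) ≠ 0 := by positivity
  field_simp

lemma odd_den {x : ℚ} (hx : x ∈ Z2) : Odd x.den := by
  obtain ⟨a, b, hb, h⟩ := hx
  have hb0 : (b : ℚ) ≠ 0 := by
    have : b ≠ 0 := by rintro rfl; simp at hb
    exact_mod_cast this
  have hx : x = a / b := by rw [← h]; field_simp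
  have h1 := Rat.den_dvd a b
  rw [Rat.divInt_eq_div, ← hx] at h1
  obtain ⟨c, hc⟩ := h1
  rw [hc] at hb
  have := (Int.odd_mul.1 hb).1
  exact_mod_cast this

/-! ### the numbers -/

/-- `∏ (4 j - 1)²` -/
def Pi1 (N : ℕ) : ℤ := ∏ j ∈ range N, (4 * ((j : ℤ) + 1) - 1) ^ 2

/-- `∏ (4 j - 3)²` -/
def Pi3 (N : ℕ) : ℤ := ∏ j ∈ range N, (4 * ((j : ℤ) + 1) - 3) ^ 2

/-- coefficients of the denominator -/
def fc (k : ℕ) : ℚ := (Pi3 k : ℚ) / ((2 * k).factorial : ℚ)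

/-- coefficients of the numerator -/
def gc (k : ℕ) : ℚ := (Pi1 k : ℚ) / ((2 * k + 1).factorial : ℚ)

lemma fc_zero : fc 0 = 1 := by simp [fc, Pi3]

lemma gc_zero : gc 0 = 1 := by simp [gc, Pi1]

lemma fc_succ (k : ℕ) : (2 * (k : ℚ) + 2) * (2 * k + 1) * fc (k + 1) = (4 * k + 1) ^ 2 * fc k := by
  unfold fc Pi3
  rw [prod_range_succ, show 2 * (k + 1) = 2 * k + 1 + 1 by ring, Nat.factorial_succ,
    Nat.factorial_succ]
  push_cast
  have h1 : ((2 * k).factorial : ℚ) ≠ 0 := by positivity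
  have h2 : (2 * (k : ℚ) + 1) ≠ 0 := by positivity
  have h3 : (2 * (k : ℚ) + 1 + 1) ≠ 0 := by positivity
  field_simp
  ring

lemma gc_succ (k : ℕ) : (2 * (k : ℚ) + 3) * (2 * k + 2) * gc (k + 1) = (4 * k + 3) ^ 2 * gc k := by
  unfold gc Pi1
  rw [prod_range_succ, show 2 * (k + 1) + 1 = 2 * k + 1 + 1 + 1 by ring, Nat.factorial_succ,
    Nat.factorial_succ (2 * k + 1)]
  push_cast
  have h1 : ((2 * k + 1).factorial : ℚ) ≠ 0 := by positivity
  have h2 : (2 * (k : ℚ) + 1 + 1) ≠ 0 := by positivity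
  have h3 : (2 * (k : ℚ) + 1 + 1 + 1) ≠ 0 := by positivity
  field_simp
  ring

/-! ### the power series -/

/-- the denominator -/
def f : ℚ⟦X⟧ := PowerSeries.mk fc

/-- the numerator -/
def g : ℚ⟦X⟧ := PowerSeries.mk gc

/-- the derivative -/
noncomputable def dd (h : ℚ⟦X⟧) : ℚ⟦X⟧ := PowerSeries.derivative ℚ h

lemma coeff_dd (h : ℚ⟦X⟧) (n : ℕ) : coeff n (dd h) = coeff (n + 1) h * (n + 1) :=
  PowerSeries.coeff_derivative h n

lemma dd_mul (a b : ℚ⟦X⟧) : dd (a * b) = dd a * b + a * dd b := by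
  unfold dd
  rw [Derivation.leibniz, smul_eq_mul, smul_eq_mul]
  ring

lemma dd_add (a b : ℚ⟦X⟧) : dd (a + b) = dd a + dd b := by
  unfold dd
  rw [map_add]

lemma dd_sub (a b : ℚ⟦X⟧) : dd (a - b) = dd a - dd b := by
  unfold dd
  rw [map_sub]

lemma dd_X : dd X = 1 := by
  unfold dd
  exact PowerSeries.derivative_X

lemma dd_natCast (n : ℕ) : dd (n : ℚ⟦X⟧) = 0 := by
  unfold dd
  exact Derivation.map_natCast _ n

lemma dd_ofNat (n : ℕ) [n.AtLeastTwo] : dd (OfNat.ofNat n : ℚ⟦X⟧) = 0 := by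
  have := dd_natCast (OfNat.ofNat n)
  simpa using this

lemma dd_one : dd (1 : ℚ⟦X⟧) = 0 := by
  have := dd_natCast 1
  simpa using this

lemma dd_zero : dd (0 : ℚ⟦X⟧) = 0 := by
  have := dd_natCast 0
  simpa using this

/-- the coefficient of `X ^ j * h` -/
lemma coeff_X_pow_mul_add (h : ℚ⟦X⟧) (n j : ℕ) : coeff (n + j) (X ^ j * h) = coeff n h :=
  PowerSeries.coeff_X_pow_mul h j n

/-- the coefficients of `X * dd (dd h)` -/
lemma coeff_X_dd2 (h : ℚ⟦X⟧) (n : ℕ) : coeff n (X * dd (dd h)) =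
    (n + 1) * n * coeff (n + 1) h := by
  cases n with
  | zero => simp
  | succ n =>
    rw [coeff_succ_X_mul, coeff_dd, coeff_dd]
    push_cast
    ring

lemma coeff_X_dd (h : ℚ⟦X⟧) (n : ℕ) : coeff n (X * dd h) = n * coeff n h := by
  cases n with
  | zero => simp
  | succ n =>
    rw [coeff_succ_X_mul, coeff_dd]
    push_cast
    ring

lemma coeff_X2_dd2 (h : ℚ⟦X⟧) (n : ℕ) : coeff n (X ^ 2 * dd (dd h)) =
    n * (n - 1) * coeff n h := by
  rcases n with _ | _ | n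
  · simp
  · rw [pow_two, mul_assoc]
    simp
  · rw [show n + 1 + 1 = n + 2 by ring, coeff_X_pow_mul_add, coeff_dd, coeff_dd]
    push_cast
    ring

lemma coeff_X_dd3 (h : ℚ⟦X⟧) (n : ℕ) : coeff n (X * dd (dd (dd h))) =
    (n + 2) * (n + 1) * n * coeff (n + 2) h := by
  cases n with
  | zero => simp
  | succ n =>
    rw [coeff_succ_X_mul, coeff_dd, coeff_dd, coeff_dd]
    push_cast
    ring

lemma coeff_X2_dd3 (h : ℚ⟦X⟧) (n : ℕ) : coeff n (X ^ 2 * dd (dd (dd h))) =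
    (n + 1) * n * (n - 1) * coeff (n + 1) h := by
  rcases n with _ | _ | n
  · simp
  · rw [pow_two, mul_assoc]
    simp
  · rw [show n + 1 + 1 = n + 2 by ring, coeff_X_pow_mul_add, coeff_dd, coeff_dd, coeff_dd]
    push_cast
    ring

lemma coeff_X3_dd3 (h : ℚ⟦X⟧) (n : ℕ) : coeff n (X ^ 3 * dd (dd (dd h))) =
    n * (n - 1) * (n - 2) * coeff n h := by
  rcases n with _ | _ | _ | n
  · simp
  · rw [pow_succ', mul_assoc]
    simp
  · rw [pow_succ', mul_assoc, coeff_succ_X_mul, pow_two, mul_assoc]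
    simp
  · rw [show n + 1 + 1 + 1 = n + 3 by ring, coeff_X_pow_mul_add, coeff_dd, coeff_dd, coeff_dd]
    push_cast
    ring

lemma coeff_dd2 (h : ℚ⟦X⟧) (n : ℕ) : coeff n (dd (dd h)) =
    (n + 2) * (n + 1) * coeff (n + 2) h := by
  rw [coeff_dd, coeff_dd]
  push_cast
  ring

lemma coeff_natCast_mul (a : ℕ) (h : ℚ⟦X⟧) (n : ℕ) :
    coeff n ((a : ℚ⟦X⟧) * h) = a * coeff n h := by
  have : ((a : ℚ⟦X⟧)) = PowerSeries.C (a : ℚ) := by simp
  rw [this, coeff_C_mul]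

/-- the differential equation of `f` -/
lemma ode_f : (4 * X - 16 * X ^ 2) * dd (dd f) + (2 - 24 * X) * dd f - f = 0 := by
  have h : (4 * X - 16 * X ^ 2) * dd (dd f) + (2 - 24 * X) * dd f - f =
      ((4 : ℕ) : ℚ⟦X⟧) * (X * dd (dd f)) - ((16 : ℕ) : ℚ⟦X⟧) * (X ^ 2 * dd (dd f)) +
      ((2 : ℕ) : ℚ⟦X⟧) * dd f - ((24 : ℕ) : ℚ⟦X⟧) * (X * dd f) - f := by
    push_cast; ring
  rw [h]
  ext n
  rw [map_sub, map_sub, map_add, map_sub, coeff_natCast_mul, coeff_natCast_mul, coeff_natCast_mul,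
    coeff_natCast_mul, coeff_X_dd2, coeff_X2_dd2, coeff_dd, coeff_X_dd, map_zero]
  have := fc_succ n
  simp only [f, coeff_mk]
  push_cast
  linear_combination this

/-- the differential equation of `g` -/
lemma ode_g : (4 * X - 16 * X ^ 2) * dd (dd g) + (6 - 40 * X) * dd g - 9 * g = 0 := by
  have h : (4 * X - 16 * X ^ 2) * dd (dd g) + (6 - 40 * X) * dd g - 9 * g =
      ((4 : ℕ) : ℚ⟦X⟧) * (X * dd (dd g)) - ((16 : ℕ) : ℚ⟦X⟧) * (X ^ 2 * dd (dd g)) +
      ((6 : ℕ) : ℚ⟦X⟧) * dd g - ((40 : ℕ) : ℚ⟦X⟧) * (X * dd g) - ((9 : ℕ) : ℚ⟦X⟧) * g := by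
    push_cast; ring
  rw [h]
  ext n
  rw [map_sub, map_sub, map_add, map_sub, coeff_natCast_mul, coeff_natCast_mul, coeff_natCast_mul,
    coeff_natCast_mul, coeff_natCast_mul, coeff_X_dd2, coeff_X2_dd2, coeff_dd, coeff_X_dd, map_zero]
  have := gc_succ n
  simp only [g, coeff_mk]
  push_cast
  linear_combination this

/-- the Wronskian -/
lemma wronskian : (1 - 4 * X) * (g * f + 2 * X * (dd g * f - g * dd f)) = 1 := by
  apply PowerSeries.derivative.ext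
  · change dd _ = dd _
    rw [dd_one]
    have h4 : dd (4 : ℚ⟦X⟧) = 0 := dd_ofNat 4
    have h2 : dd (2 : ℚ⟦X⟧) = 0 := dd_ofNat 2
    simp only [dd_mul, dd_sub, dd_add, dd_X, dd_one, h4, h2]
    have h2' : (2 : ℚ⟦X⟧) ≠ 0 := by
      intro h
      have := congrArg (PowerSeries.constantCoeff) h
      rw [map_ofNat, map_zero] at this
      norm_num at this
    apply mul_left_cancel₀ h2'
    linear_combination f * ode_g - g * ode_f
  · simp [f, g, fc_zero, gc_zero]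

/-- the square of `f` -/
noncomputable def F : ℚ⟦X⟧ := f * f

/-- the differential equation of `F` -/
lemma ode_F : (2 * X - 16 * X ^ 2 + 32 * X ^ 3) * dd (dd (dd F)) +
    (3 - 48 * X + 144 * X ^ 2) * dd (dd F) + (-18 + 104 * X) * dd F + 4 * F = 0 := by
  have h4 : dd (4 : ℚ⟦X⟧) = 0 := dd_ofNat 4
  have h2 : dd (2 : ℚ⟦X⟧) = 0 := dd_ofNat 2
  have h16 : dd (16 : ℚ⟦X⟧) = 0 := dd_ofNat 16
  have h24 : dd (24 : ℚ⟦X⟧) = 0 := dd_ofNat 24
  have e1 := ode_f
  have e2 : (4 * X - 16 * X ^ 2) * dd (dd (dd f)) + (6 - 56 * X) * dd (dd f) - 25 * dd f = 0 := by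
    have h := congrArg dd ode_f
    rw [pow_two] at h
    simp only [dd_mul, dd_sub, dd_add, dd_X, dd_zero, h4, h2, h16, h24] at h
    linear_combination h
  unfold F
  simp only [dd_mul, dd_add]
  linear_combination (1 - 4 * X) * f * e2 + 3 * (1 - 4 * X) * dd f * e1 - 4 * f * e1

/-- the recurrence for the coefficients of `F` -/
lemma rec_F (m : ℕ) : ((m : ℚ) + 2) * (m + 1) * (2 * m + 3) * coeff (m + 2) F =
    2 * (m + 1) * (8 * m ^ 2 + 16 * m + 9) * coeff (m + 1) F -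
      4 * (2 * m + 1) ^ 3 * coeff m F := by
  have h : (2 * X - 16 * X ^ 2 + 32 * X ^ 3) * dd (dd (dd F)) +
      (3 - 48 * X + 144 * X ^ 2) * dd (dd F) + (-18 + 104 * X) * dd F + 4 * F =
      ((2 : ℕ) : ℚ⟦X⟧) * (X * dd (dd (dd F))) - ((16 : ℕ) : ℚ⟦X⟧) * (X ^ 2 * dd (dd (dd F))) +
      ((32 : ℕ) : ℚ⟦X⟧) * (X ^ 3 * dd (dd (dd F))) + ((3 : ℕ) : ℚ⟦X⟧) * dd (dd F) -
      ((48 : ℕ) : ℚ⟦X⟧) * (X * dd (dd F)) + ((144 : ℕ) : ℚ⟦X⟧) * (X ^ 2 * dd (dd F)) -
      ((18 : ℕ) : ℚ⟦X⟧) * dd F + ((104 : ℕ) : ℚ⟦X⟧) * (X * dd F) + ((4 : ℕ) : ℚ⟦X⟧) * F := by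
    push_cast; ring
  have h1 := congrArg (coeff m) (h.symm.trans ode_F)
  rw [map_add, map_add, map_sub, map_add, map_sub, map_add, map_add, map_sub, coeff_natCast_mul,
    coeff_natCast_mul, coeff_natCast_mul, coeff_natCast_mul, coeff_natCast_mul,
    coeff_natCast_mul, coeff_natCast_mul, coeff_natCast_mul, coeff_natCast_mul, coeff_X_dd3,
    coeff_X2_dd3, coeff_X3_dd3, coeff_dd2, coeff_X_dd2, coeff_X2_dd2, coeff_X_dd, coeff_dd,
    map_zero] at h1
  push_cast at h1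
  linear_combination h1

lemma F_zero : coeff 0 F = 1 := by
  simp [F, f, fc_zero]

lemma F_one : coeff 1 F = 1 := by
  have h : fc 1 = 1 / 2 := by
    have := fc_succ 0
    rw [fc_zero] at this
    norm_num at this
    linarith
  rw [F, coeff_mul]
  rw [Finset.Nat.antidiagonal_succ]
  simp [f, fc_zero, h]
  norm_num

/-! ### the explicit formula -/

/-- `∏_{i < k} (n² - i²)` -/
def Q (k : ℕ) (n : ℚ) : ℚ := ∏ i ∈ range k, (n ^ 2 - (i : ℚ) ^ 2)

/-- `Q / (2 k)!` -/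
def P (k : ℕ) (n : ℚ) : ℚ := Q k n / ((2 * k).factorial : ℚ)

lemma Q_succ (k : ℕ) (n : ℚ) : Q (k + 1) n = Q k n * (n ^ 2 - (k : ℚ) ^ 2) := prod_range_succ _ _

lemma Q_up (k : ℕ) (n : ℚ) : n * Q (k + 1) (n + 1) =
    (n + 1) * (n + (k + 1)) * (n + k) * Q k n := by
  induction k with
  | zero => simp [Q]; ring
  | succ k ih =>
    rw [Q_succ (k + 1), Q_succ k n]
    push_cast
    linear_combination ((n + 1) ^ 2 - ((k : ℚ) + 1) ^ 2) * ih

lemma Q_down (k : ℕ) (n : ℚ) : n * Q (k + 1) (n - 1) =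
    (n - 1) * (n - (k + 1)) * (n - k) * Q k n := by
  induction k with
  | zero => simp [Q]; ring
  | succ k ih =>
    rw [Q_succ (k + 1), Q_succ k n]
    push_cast
    linear_combination ((n - 1) ^ 2 - ((k : ℚ) + 1) ^ 2) * ih

lemma P_zero (n : ℚ) : P 0 n = 1 := by simp [P, Q]

lemma fact_two (k : ℕ) : ((2 * (k + 1)).factorial : ℚ) =
    (2 * k + 2) * (2 * k + 1) * ((2 * k).factorial : ℚ) := by
  rw [show 2 * (k + 1) = 2 * k + 1 + 1 by ring, Nat.factorial_succ, Nat.factorial_succ]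
  push_cast
  ring

/-- `(n, k + 1)` in terms of `(n, k)` -/
lemma P_succ (k : ℕ) (n : ℚ) : (2 * (k : ℚ) + 2) * (2 * k + 1) * P (k + 1) n =
    (n ^ 2 - (k : ℚ) ^ 2) * P k n := by
  unfold P
  rw [Q_succ, fact_two]
  have h1 : ((2 * k).factorial : ℚ) ≠ 0 := by positivity
  have h2 : (2 * (k : ℚ) + 1) ≠ 0 := by positivity
  have h3 : (2 * (k : ℚ) + 2) ≠ 0 := by positivity
  field_simp

lemma P_up (k : ℕ) (n : ℚ) : (2 * (k : ℚ) + 2) * (2 * k + 1) * (n * P (k + 1) (n + 1)) =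
    (n + 1) * (n + (k + 1)) * (n + k) * P k n := by
  unfold P
  rw [fact_two]
  have h1 : ((2 * k).factorial : ℚ) ≠ 0 := by positivity
  have h2 : (2 * (k : ℚ) + 1) ≠ 0 := by positivity
  have h3 : (2 * (k : ℚ) + 2) ≠ 0 := by positivity
  have := Q_up k n
  field_simp
  linear_combination this

lemma P_down (k : ℕ) (n : ℚ) : (2 * (k : ℚ) + 2) * (2 * k + 1) * (n * P (k + 1) (n - 1)) =
    (n - 1) * (n - (k + 1)) * (n - k) * P k n := by
  unfold P
  rw [fact_two]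
  have h1 : ((2 * k).factorial : ℚ) ≠ 0 := by positivity
  have h2 : (2 * (k : ℚ) + 1) ≠ 0 := by positivity
  have h3 : (2 * (k : ℚ) + 2) ≠ 0 := by positivity
  have := Q_down k n
  field_simp
  linear_combination this

/-- the recurrence in `n` for `P` -/
lemma P_rec (k : ℕ) {n : ℚ} (hn : n ≠ 0) :
    (2 * n + 1) ^ 2 * P (k + 1) (n + 1) - (8 * n ^ 2 + 1) * P (k + 1) n +
      (2 * n - 1) ^ 2 * P (k + 1) (n - 1) =
    (4 * (k + 1) + 1) ^ 2 * P (k + 1) n + (2 * (k + 1) - 1) ^ 2 * P k n := by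
  have h1 := P_up k n
  have h2 := P_down k n
  have h3 := P_succ k n
  have h4 : (2 * (k : ℚ) + 2) * (2 * k + 1) ≠ 0 := by positivity
  apply mul_left_cancel₀ (mul_ne_zero h4 hn)
  linear_combination (2 * n + 1) ^ 2 * h1 + (2 * n - 1) ^ 2 * h2 -
    n * ((8 * n ^ 2 + 1) + (4 * ((k : ℚ) + 1) + 1) ^ 2) * h3

/-- the Chebyshev recurrence -/
lemma P_cheb (k : ℕ) {n : ℚ} (hn : n ≠ 0) :
    P (k + 1) (n + 1) + P (k + 1) (n - 1) = 2 * P (k + 1) n + P k n := by
  have h1 := P_up k n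
  have h2 := P_down k n
  have h3 := P_succ k n
  have h4 : (2 * (k : ℚ) + 2) * (2 * k + 1) ≠ 0 := by positivity
  apply mul_left_cancel₀ (mul_ne_zero h4 hn)
  linear_combination h1 + h2 - 2 * n * h3

lemma P_nat_zero (k : ℕ) : P (k + 1) 0 = 0 := by
  rw [P, Q, prod_range_succ']
  simp

lemma P_vanish {k n : ℕ} (h : n < k) : P k n = 0 := by
  rw [P, Q, prod_eq_zero (mem_range.2 h) (by simp), zero_div]

/-- twice `P` is an integer -/
lemma two_P_mem (n : ℕ) : ∀ k, (2 * P k n ∈ Z2 ∧ 2 * P k ((n : ℚ) + 1) ∈ Z2) := by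
  have h2 : (2 : ℚ) ∈ Z2 := by exact_mod_cast nat_mem 2
  induction n with
  | zero =>
    intro k
    rw [Nat.cast_zero]
    rcases k with _ | _ | k
    · rw [P_zero, P_zero]
      simpa using h2
    · rw [P_nat_zero]
      refine ⟨by simp [Z2.zero_mem], ?_⟩
      have : (2 : ℚ) * P (0 + 1) (0 + 1) = 1 := by
        simp [P, Q, Nat.factorial]
      rw [this]
      exact Z2.one_mem
    · rw [P_nat_zero]
      refine ⟨by simp [Z2.zero_mem], ?_⟩
      have h1 := P_vanish (show 1 < k + 1 + 1 by omega)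
      rw [Nat.cast_one] at h1
      rw [zero_add, h1, mul_zero]
      exact Z2.zero_mem
  | succ n ih =>
    intro k
    refine ⟨by simpa using (ih k).2, ?_⟩
    cases k with
    | zero =>
      rw [P_zero, mul_one]
      exact h2
    | succ k =>
      have h3 : ((n + 1 : ℕ) : ℚ) ≠ 0 := by positivity
      have h4 := P_cheb k h3
      have h5 : ((n + 1 : ℕ) : ℚ) - 1 = n := by push_cast; ring
      rw [h5] at h4
      have h6 : 2 * P (k + 1) (((n + 1 : ℕ) : ℚ) + 1) =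
          2 * (2 * P (k + 1) ((n : ℚ) + 1)) + 2 * P k ((n : ℚ) + 1) - 2 * P (k + 1) n := by
        push_cast at h4 ⊢
        linear_combination 2 * h4
      rw [h6]
      exact Z2.sub_mem (Z2.add_mem (Z2.mul_mem h2 (ih (k + 1)).2) (ih k).2) (ih (k + 1)).1

/-- the weights -/
def c (k : ℕ) : ℚ := ∏ j ∈ range k, ((4 * (j : ℚ) + 1) / (2 * j + 1)) ^ 2

lemma c_mem (k : ℕ) : c k ∈ Z2 := by
  unfold c
  refine Z2.prod_mem fun j _ => Z2.pow_mem (div_odd_mem ?_ j) 2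
  have := nat_mem (4 * j + 1)
  push_cast at this
  exact this

lemma c_succ (k : ℕ) : (2 * (k : ℚ) + 1) ^ 2 * c (k + 1) = (4 * k + 1) ^ 2 * c k := by
  unfold c
  rw [prod_range_succ]
  have h2 : (2 * (k : ℚ) + 1) ≠ 0 := by positivity
  field_simp

/-- the sum -/
def S (K : ℕ) (n : ℚ) : ℚ := ∑ k ∈ range K, (-1) ^ k * c k * P k n

/-- the recurrence in `n` for the truncated sums -/
lemma S_rec (K : ℕ) {n : ℚ} (hn : n ≠ 0) :
    (2 * n + 1) ^ 2 * S (K + 1) (n + 1) - (8 * n ^ 2 + 1) * S (K + 1) n +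
      (2 * n - 1) ^ 2 * S (K + 1) (n - 1) = (-1) ^ K * c K * (4 * K + 1) ^ 2 * P K n := by
  induction K with
  | zero =>
    simp [S, P_zero, c]
    ring
  | succ K ih =>
    unfold S at ih ⊢
    rw [sum_range_succ, sum_range_succ (n := K + 1) (f := fun k => (-1) ^ k * c k * P k n),
      sum_range_succ (n := K + 1) (f := fun k => (-1) ^ k * c k * P k (n - 1))]
    have h1 := P_rec K hn
    have h2 := c_succ K
    rw [pow_succ]
    push_cast
    linear_combination ih + (-1) ^ K * (-1) * c (K + 1) * h1 + (-1) ^ K * (-1) * P K n * h2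

/-- the explicit formula for the coefficients of `F` -/
def φ (m : ℕ) : ℚ := (Nat.centralBinom m : ℚ) * S (m + 1) m

lemma S_stable {K m : ℕ} (h : m + 1 ≤ K) : S K m = S (m + 1) m := by
  unfold S
  symm
  apply sum_subset (range_subset_range.2 h)
  intro k _ hk
  rw [P_vanish (by rw [mem_range] at hk; omega), mul_zero]

lemma φ_rec (m : ℕ) : ((m : ℚ) + 2) * (m + 1) * (2 * m + 3) * φ (m + 2) =
    2 * (m + 1) * (8 * m ^ 2 + 16 * m + 9) * φ (m + 1) -
      4 * (2 * m + 1) ^ 3 * φ m := by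
  have hn : ((m + 1 : ℕ) : ℚ) ≠ 0 := by positivity
  have h1 := S_rec (m + 4) hn
  rw [P_vanish (show m + 1 < m + 4 by omega), mul_zero] at h1
  have e1 : ((m + 1 : ℕ) : ℚ) + 1 = ((m + 2 : ℕ) : ℚ) := by push_cast; ring
  have e2 : ((m + 1 : ℕ) : ℚ) - 1 = (m : ℚ) := by push_cast; ring
  rw [e1, e2, S_stable (show m + 2 + 1 ≤ m + 4 + 1 by omega),
    S_stable (show m + 1 + 1 ≤ m + 4 + 1 by omega),
    S_stable (show m + 1 ≤ m + 4 + 1 by omega)] at h1
  have h2 : ((m : ℚ) + 1) * (Nat.centralBinom (m + 1) : ℚ) =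
      2 * (2 * m + 1) * Nat.centralBinom m := by
    exact_mod_cast Nat.succ_mul_centralBinom_succ m
  have h3 : ((m : ℚ) + 2) * (Nat.centralBinom (m + 2) : ℚ) =
      2 * (2 * m + 3) * Nat.centralBinom (m + 1) := by
    have := Nat.succ_mul_centralBinom_succ (m + 1)
    have h : ((((m + 1 + 1) * Nat.centralBinom (m + 1 + 1) : ℕ)) : ℚ) =
        ((2 * (2 * (m + 1) + 1) * Nat.centralBinom (m + 1) : ℕ) : ℚ) := by rw [this]
    push_cast at h
    linear_combination h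
  unfold φ
  push_cast at h1 ⊢
  generalize S (m + 2 + 1) ((m : ℚ) + 2) = s2 at *
  generalize S (m + 1 + 1) ((m : ℚ) + 1) = s1 at *
  generalize S (m + 1) (m : ℚ) = s0 at *
  generalize (Nat.centralBinom (m + 2) : ℚ) = b2 at *
  generalize (Nat.centralBinom (m + 1) : ℚ) = b1 at *
  generalize (Nat.centralBinom m : ℚ) = b0 at *
  have h4 : (m + 1) * ((m + 2) * b2) = 4 * (2 * m + 3) * (2 * m + 1) * b0 := by
    rw [h3]
    linear_combination 2 * (2 * (m : ℚ) + 3) * h2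
  linear_combination (2 * (m : ℚ) + 3) * s2 * h4 -
    2 * (8 * (m : ℚ) ^ 2 + 16 * m + 9) * s1 * h2 + 4 * (2 * (m : ℚ) + 1) * b0 * h1

lemma coeff_F_eq (m : ℕ) : coeff m F = φ m ∧ coeff (m + 1) F = φ (m + 1) := by
  induction m with
  | zero =>
    rw [F_zero, F_one]
    constructor
    · simp [φ, S, c, P_zero]
    · simp [φ, S, sum_range_succ, c, P, Q, Nat.factorial, Nat.centralBinom]
      norm_num
  | succ m ih =>
    refine ⟨ih.2, ?_⟩
    have h1 := rec_F m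
    have h2 := φ_rec m
    rw [ih.1, ih.2, ← h2] at h1
    have h3 : ((m : ℚ) + 2) * (m + 1) * (2 * m + 3) ≠ 0 := by positivity
    exact mul_left_cancel₀ h3 h1

lemma coeff_F_mem (m : ℕ) : coeff m F ∈ Z2 := by
  rw [(coeff_F_eq m).1]
  cases m with
  | zero =>
    simp [φ, S, c, P_zero, Z2.one_mem]
  | succ m =>
    obtain ⟨a, ha⟩ := (Nat.two_dvd_centralBinom_succ m)
    unfold φ
    rw [ha, S]
    push_cast
    rw [mul_comm (2 : ℚ) (a : ℚ), mul_assoc, mul_sum]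
    refine Z2.mul_mem (nat_mem a) (Z2.sum_mem fun k _ => ?_)
    have h1 := (two_P_mem (m + 1) k).1
    push_cast at h1
    have : 2 * ((-1) ^ k * c k * P k ((m : ℚ) + 1)) =
        (-1) ^ k * c k * (2 * P k ((m : ℚ) + 1)) := by ring
    rw [this]
    exact Z2.mul_mem (Z2.mul_mem (Z2.pow_mem (Z2.neg_mem Z2.one_mem) k) (c_mem k)) h1

/-! ### the inverse -/

lemma inverse_mem {V W : ℚ⟦X⟧} (h : V * W = 1) (hW0 : coeff 0 W = 1)
    (hW : ∀ n, coeff n W ∈ Z2) (n : ℕ) : coeff n V ∈ Z2 := by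
  induction n using Nat.strong_induction_on with
  | _ n ih =>
    have h1 := congrArg (coeff n) h
    rw [coeff_mul, Finset.Nat.sum_antidiagonal_eq_sum_range_succ_mk, sum_range_succ, Nat.sub_self,
      hW0, mul_one] at h1
    have h2 : coeff n V = coeff n (1 : ℚ⟦X⟧) - ∑ i ∈ range n, coeff i V * coeff (n - i) W := by
      linear_combination h1
    rw [h2]
    refine Z2.sub_mem ?_ (Z2.sum_mem fun i hi => Z2.mul_mem (ih i (mem_range.1 hi)) (hW _))
    rw [coeff_one]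
    split_ifs
    · exact Z2.one_mem
    · exact Z2.zero_mem

/-- the main result for the quotient -/
theorem quotient_mem {U : ℚ⟦X⟧} (hU : U * f = g) (n : ℕ) : coeff n U ∈ Z2 := by
  have h1 : (U + 2 * X * dd U) * ((1 - 4 * X) * F) = 1 := by
    refine Eq.trans ?_ wronskian
    have h2 : dd g = dd U * f + U * dd f := by rw [← hU, dd_mul]
    rw [h2, ← hU, F]
    ring
  have h3 : coeff n (U + 2 * X * dd U) ∈ Z2 := by
    refine inverse_mem h1 ?_ ?_ n
    · have := F_zero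
      simp [F, f, fc_zero]
    · intro m
      have h4 : (1 - 4 * X) * F = F - ((4 : ℕ) : ℚ⟦X⟧) * (X * F) := by push_cast; ring
      rw [h4, map_sub, coeff_natCast_mul]
      refine Z2.sub_mem (coeff_F_mem m) (Z2.mul_mem (nat_mem 4) ?_)
      cases m with
      | zero => simp [Z2.zero_mem]
      | succ m => rw [coeff_succ_X_mul]; exact coeff_F_mem m
  have h5 : coeff n (U + 2 * X * dd U) = (2 * n + 1) * coeff n U := by
    have : U + 2 * X * dd U = U + ((2 : ℕ) : ℚ⟦X⟧) * (X * dd U) := by push_cast; ring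
    rw [this, map_add, coeff_natCast_mul, coeff_X_dd]
    push_cast
    ring
  have h6 := div_odd_mem h3 n
  rw [h5] at h6
  have h7 : (2 * (n : ℚ) + 1) ≠ 0 := by positivity
  rwa [mul_div_cancel_left₀ _ h7] at h6

end Pool.Agent.R326.TA
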